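import Mathlib
import Pool.Agent.U180.NG.Stm2

/-!
# Project NG (helper180), package LFL: the floors of the ends of the rows may be dropped
-/

set_option autoImplicit false

namespace Pool.Agent.U263.NG

open Pool.Agent.U180.NG

theorem conc (R : ℝ) : ConcaveOn ℝ (Set.Icc (-R) R) (fun t : ℝ => Real.sqrt (R ^ 2 - t ^ 2)) := by
  refine ⟨convex_Icc _ _, ?_⟩
  intro x hx y hy a b ha hb hab
  have hX : 0 ≤ R ^ 2 - x ^ 2 := by nlinarith [hx.1, hx.2]
  have hY : 0 ≤ R ^ 2 - y ^ 2 := by nlinarith [hy.1, hy.2]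
  have h1 := Real.strictConcaveOn_sqrt.concaveOn.2 (Set.mem_Ici.2 hX) (Set.mem_Ici.2 hY) ha hb hab
  simp only [smul_eq_mul] at h1 ⊢
  refine h1.trans (Real.sqrt_le_sqrt ?_)
  have hb' : b = 1 - a := by linarith
  subst hb'
  nlinarith [mul_nonneg (mul_nonneg ha hb) (sq_nonneg (x - y))]

theorem four {R s t h : ℝ} (hs : -R ≤ s) (hst : s ≤ t) (hh : 0 ≤ h) (ht : t + h ≤ R) :
    Real.sqrt (R ^ 2 - s ^ 2) + Real.sqrt (R ^ 2 - (t + h) ^ 2) ≤
      Real.sqrt (R ^ 2 - (s + h) ^ 2) + Real.sqrt (R ^ 2 - t ^ 2) := by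
  have h0 : 0 ≤ t - s + h := by linarith
  rcases eq_or_lt_of_le h0 with h1 | h1
  · have e1 : h = 0 := by linarith
    have e2 : t = s := by linarith
    rw [e1, e2, add_zero]
  · have hms : s ∈ Set.Icc (-R) R := ⟨hs, by linarith⟩
    have hmt : t + h ∈ Set.Icc (-R) R := ⟨by linarith, ht⟩
    have hlam : 0 ≤ h / (t - s + h) := div_nonneg hh h0
    have hmu : 0 ≤ (t - s) / (t - s + h) := div_nonneg (by linarith) h0
    have hsum : (t - s) / (t - s + h) + h / (t - s + h) = 1 := by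
      rw [← add_div, div_self h1.ne']
    have hsum' : h / (t - s + h) + (t - s) / (t - s + h) = 1 := by rw [add_comm]; exact hsum
    have i1 := (conc R).2 hms hmt hmu hlam hsum
    have i2 := (conc R).2 hms hmt hlam hmu hsum'
    have e1 : (t - s) / (t - s + h) * s + h / (t - s + h) * (t + h) = s + h := by
      field_simp
      ring
    have e2 : h / (t - s + h) * s + (t - s) / (t - s + h) * (t + h) = t := by
      field_simp
      ring
    simp only [smul_eq_mul] at i1 i2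
    rw [e1] at i1
    rw [e2] at i2
    set X := Real.sqrt (R ^ 2 - s ^ 2)
    set Y := Real.sqrt (R ^ 2 - (t + h) ^ 2)
    have e3 : X + Y = ((t - s) / (t - s + h) * X + h / (t - s + h) * Y) +
        (h / (t - s + h) * X + (t - s) / (t - s + h) * Y) := by
      have : ((t - s) / (t - s + h) * X + h / (t - s + h) * Y) +
        (h / (t - s + h) * X + (t - s) / (t - s + h) * Y) =
        ((t - s) / (t - s + h) + h / (t - s + h)) * (X + Y) := by ring
      rw [this, hsum, one_mul]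
    rw [e3]
    exact add_le_add i1 i2

theorem mono {R y y' : ℝ} (hy : y ≤ y') {m n : ℤ} (hmn : m ≤ n) (h1 : -R ≤ m + y)
    (h2 : (n : ℝ) + y' ≤ R) : hl R y m - hl R y' m ≤ hl R y n - hl R y' n := by
  have h3 : (m : ℝ) ≤ n := by exact_mod_cast hmn
  have h := four (R := R) (s := m + y) (t := n + y) (h := y' - y) h1 (by linarith) (by linarith)
    (by linarith)
  have e1 : (n : ℝ) + y + (y' - y) = n + y' := by ring
  have e2 : (m : ℝ) + y + (y' - y) = m + y' := by ring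
  rw [e1, e2] at h
  unfold hl
  linarith

theorem t_LFL (hP : S_PSI) : S_LFL := by
  obtain ⟨C, hC, hP⟩ := hP
  intro y y' c c'
  refine ⟨2 * C, fun R m₁ m₂ hR h1 h2 => ?_⟩
  set A : ℤ → ℝ := fun m => hl R y m + c with hA
  set B : ℤ → ℝ := fun m => hl R y' m + c' with hB
  have hRp : 0 ≤ R ^ (3 / 4 : ℝ) := Real.rpow_nonneg (by linarith) _
  have ay := le_abs_self y
  have ay2 := neg_abs_le y
  have ay' := le_abs_self y'
  have ay2' := neg_abs_le y'
  have nn := abs_nonneg y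
  have nn' := abs_nonneg y'
  have hconn : ∀ k m n : ℤ, m₁ ≤ k → k ≤ m → m ≤ n → n ≤ m₂ → B k < A k → B n < A n →
      B m < A m := by
    intro k m n hk hkm hmn hn hBk hBn
    have c1 : (m₁ : ℝ) ≤ k := by exact_mod_cast hk
    have c2 : (k : ℝ) ≤ m := by exact_mod_cast hkm
    have c3 : (m : ℝ) ≤ n := by exact_mod_cast hmn
    have c4 : (n : ℝ) ≤ m₂ := by exact_mod_cast hn
    simp only [hA, hB] at hBk hBn ⊢
    rcases le_total y y' with hy | hy
    · have := mono (R := R) hy hkm (by linarith) (by linarith)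
      linarith
    · have := mono (R := R) hy hmn (by linarith) (by linarith)
      linarith
  set P := (Finset.Icc m₁ m₂).filter fun m => B m < A m with hPd
  have s1 : ∑ m ∈ Finset.Icc m₁ m₂, max 0 ((⌊A m⌋ : ℝ) - ⌊B m⌋) =
      ∑ m ∈ P, ((⌊A m⌋ : ℝ) - ⌊B m⌋) := by
    rw [hPd, Finset.sum_filter]
    refine Finset.sum_congr rfl fun m _ => ?_
    split_ifs with h
    · have h3 : (⌊B m⌋ : ℝ) ≤ ⌊A m⌋ := by exact_mod_cast Int.floor_mono h.le
      exact max_eq_right (by linarith)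
    · have h3 : (⌊A m⌋ : ℝ) ≤ ⌊B m⌋ := by exact_mod_cast Int.floor_mono (not_lt.1 h)
      exact max_eq_left (by linarith)
  have s2 : ∑ m ∈ Finset.Icc m₁ m₂, max 0 (A m - B m) = ∑ m ∈ P, (A m - B m) := by
    rw [hPd, Finset.sum_filter]
    refine Finset.sum_congr rfl fun m _ => ?_
    split_ifs with h
    · exact max_eq_right (by linarith)
    · exact max_eq_left (by linarith)
  have s3 : ∑ m ∈ P, ((⌊A m⌋ : ℝ) - ⌊B m⌋) - ∑ m ∈ P, (A m - B m) =
      ∑ m ∈ P, (Int.fract (B m) - 1 / 2) - ∑ m ∈ P, (Int.fract (A m) - 1 / 2) := by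
    rw [← Finset.sum_sub_distrib, ← Finset.sum_sub_distrib]
    refine Finset.sum_congr rfl fun m _ => ?_
    unfold Int.fract
    ring
  show |∑ m ∈ Finset.Icc m₁ m₂, max 0 ((⌊A m⌋ : ℝ) - ⌊B m⌋) -
    ∑ m ∈ Finset.Icc m₁ m₂, max 0 (A m - B m)| ≤ 2 * C * R ^ (3 / 4 : ℝ)
  rw [s1, s2, s3]
  rcases P.eq_empty_or_nonempty with he | hne
  · rw [he, Finset.sum_empty, Finset.sum_empty, sub_self, abs_zero]
    positivity
  · have k1 := Finset.mem_filter.1 (P.min'_mem hne)
    have k2 := Finset.mem_filter.1 (P.max'_mem hne)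
    rw [Finset.mem_Icc] at k1 k2
    have hPI : P = Finset.Icc (P.min' hne) (P.max' hne) := by
      ext m
      rw [Finset.mem_Icc]
      constructor
      · intro hm
        exact ⟨P.min'_le m hm, P.le_max' m hm⟩
      · rintro ⟨h3, h4⟩
        refine Finset.mem_filter.2 ⟨Finset.mem_Icc.2 ⟨k1.1.1.trans h3, h4.trans k2.1.2⟩, ?_⟩
        exact hconn _ m _ k1.1.1 h3 h4 k2.1.2 k1.2 k2.2
    have d1 : (m₁ : ℝ) ≤ P.min' hne := by exact_mod_cast k1.1.1
    have d2 : (P.max' hne : ℝ) ≤ m₂ := by exact_mod_cast k2.1.2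
    have p1 := hP R y c (P.min' hne) (P.max' hne) hR (Int.ceil_le.2 (by linarith))
      (Int.le_floor.2 (by linarith))
    have p2 := hP R y' c' (P.min' hne) (P.max' hne) hR (Int.ceil_le.2 (by linarith))
      (Int.le_floor.2 (by linarith))
    rw [← hPI] at p1 p2
    have t := abs_sub (∑ m ∈ P, (Int.fract (B m) - 1 / 2)) (∑ m ∈ P, (Int.fract (A m) - 1 / 2))
    calc _ ≤ |∑ m ∈ P, (Int.fract (B m) - 1 / 2)| + |∑ m ∈ P, (Int.fract (A m) - 1 / 2)| := t
      _ ≤ C * R ^ (3 / 4 : ℝ) + C * R ^ (3 / 4 : ℝ) := add_le_add p2 p1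
      _ = 2 * C * R ^ (3 / 4 : ℝ) := by ring

end Pool.Agent.U263.NG
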